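import Mathlib

set_option autoImplicit false
open MvPolynomial

namespace Pool.Agent.Results.MP_a59f64_al.NotCoord

lemma aux1 {L : Type*} [Field L] (x y z s : L) (hx : x ≠ 0) (hs : s ^ 2 = x * y + z ^ 2 - x) :
    1 - 2 * s * ((z - s) / x) - x * ((z - s) / x) ^ 2 = y := by
  field_simp
  linear_combination hs

lemma aux2 {L : Type*} [Field L] (x z s : L) (hx : x ≠ 0) : s + x * ((z - s) / x) = z := by
  field_simp
  ring

theorem result (K : Type*) [Field K] (n : ℕ) :
    ∃ (p : MvPolynomial (Fin (n + 3)) K)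
      (φ : MvPolynomial (Fin (n + 3)) K →ₐ[K] MvPolynomial (Fin (n + 3)) K),
      Function.Injective φ ∧ φ p = X 0 ∧
      ¬ ∃ α : MvPolynomial (Fin (n + 3)) K ≃ₐ[K] MvPolynomial (Fin (n + 3)) K, α (X 0) = p := by
  have h01 : (1 : Fin (n + 3)) ≠ 0 := by simp
  have hm : 2 % (n + 3) = 2 := Nat.mod_eq_of_lt (by omega)
  have h02 : (2 : Fin (n + 3)) ≠ 0 := by simp [Fin.ext_iff, hm]
  have h12 : (2 : Fin (n + 3)) ≠ 1 := by simp [Fin.ext_iff, hm]
  refine ⟨X 0 * X 1 + X 2 ^ 2, aeval fun i => if i = 0 then X 0 - X 1 ^ 2 else if i = 1 then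
    1 - 2 * X 1 * X 2 - (X 0 - X 1 ^ 2) * X 2 ^ 2 else if i = 2 then X 1 + (X 0 - X 1 ^ 2) * X 2
    else X i, ?_, ?_, ?_⟩
  · let L := AlgebraicClosure (FractionRing (MvPolynomial (Fin (n + 3)) K))
    let ι : MvPolynomial (Fin (n + 3)) K →ₐ[K] L := IsScalarTower.toAlgHom K _ L
    have hι : Function.Injective ι :=
      (algebraMap (FractionRing (MvPolynomial (Fin (n + 3)) K)) L).injective.comp
        (IsFractionRing.injective (MvPolynomial (Fin (n + 3)) K) _)
    have hx : ι (X 0) ≠ 0 := fun h => X_ne_zero (R := K) (0 : Fin (n + 3)) (hι (by simpa using h))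
    obtain ⟨s, hs⟩ := IsAlgClosed.exists_pow_nat_eq
      (ι (X 0) * ι (X 1) + ι (X 2) ^ 2 - ι (X 0)) (n := 2) two_pos
    let ψ : MvPolynomial (Fin (n + 3)) K →ₐ[K] L := aeval fun i =>
      if i = 0 then ι (X 0) * ι (X 1) + ι (X 2) ^ 2 else if i = 1 then s
      else if i = 2 then (ι (X 2) - s) / ι (X 0) else ι (X i)
    refine Function.Injective.of_comp (f := ψ) ?_
    rw [← AlgHom.coe_comp]
    convert hι using 2
    refine algHom_ext fun i => ?_
    by_cases i0 : i = 0
    · subst i0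
      simp [ψ, h01, hs]
    by_cases i1 : i = 1
    · subst i1
      simp [ψ, h01, h02, h12, hs, map_ofNat, -IsScalarTower.coe_toAlgHom']
      exact aux1 _ _ _ _ hx hs
    by_cases i2 : i = 2
    · subst i2
      simp [ψ, h01, h02, h12, hs, -IsScalarTower.coe_toAlgHom']
      exact aux2 _ _ _ hx
    · simp [ψ, i0, i1, i2]
  · simp [h01, h02, h12]
    ring
  · rintro ⟨α, hα⟩
    have h := congrArg (fun q => constantCoeff (α (pderiv 0 (α.symm q)))) hα
    simp [pow_two] at h

end Pool.Agent.Results.MP_a59f64_al.NotCoord
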